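import Mathlib
import Pool.Agent.UBV.Sweep
import Pool.Agent.UBV.Geo

/-!
# MP_f867b0_co: the unit bar visibility number of complete bipartite graphs

Every unit bar visibility representation of `K_{m,n}` (`n ≥ 1`) uses at least `m/4` bars on some
vertex, so `ub(K_{m,n}) ≥ m/4`.
-/

namespace Pool.Agent.Results.MP_f867b0_co.QuarterBound

open Pool.Agent.UBV Classical

/-- `B` assigns to every vertex a finite set of unit bars (given by their left end points) and
represents `G` with at most `t` bars per vertex. -/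
structure IsRep {V : Type*} (G : SimpleGraph V) (t : ℕ) (B : V → Finset (ℝ × ℝ)) : Prop where
  card_le : ∀ v, (B v).card ≤ t
  disj : ∀ u v p q, p ∈ B u → q ∈ B v → (u, p) ≠ (v, q) → Disjoint (seg p) (seg q)
  adj : ∀ u v, u ≠ v →
    (G.Adj u v ↔ ∃ p ∈ B u, ∃ q ∈ B v, Sees (⋃ w, (B w : Set (ℝ × ℝ))) p q)

/-- the unit bar visibility number -/
noncomputable def ub {V : Type*} (G : SimpleGraph V) : ℕ := sInf {t | ∃ B, IsRep G t B}

/-- the complete bipartite graph `K_{m,n}` -/
abbrev K (m n : ℕ) : SimpleGraph (Fin m ⊕ Fin n) := completeBipartiteGraph (Fin m) (Fin n)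

section Counting

variable {β : Type*} {f : β → Bool} {κ : β → ℕ}

theorem list_bound {Rp : Finset β} (hinj : ∀ r ∈ Rp, ∀ r' ∈ Rp, κ r = κ r' → r = r')
    (htrue : ∀ r ∈ Rp, f r = true) (l : List β) (hn : l.Nodup)
    (hcon : ∀ x y, Con l x y → f x = f y → κ x = κ y) :
    l.countP (fun x => decide (x ∈ Rp)) ≤ l.countP (fun x => decide (f x = false)) +
      (if ∃ h, l.head? = some h ∧ f h = true ∧ ∃ r ∈ l, r ∈ Rp ∧ κ r = κ h then 1 else 0) := by
  induction l with
  | nil => simp
  | cons a l ih =>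
    have hn' := List.nodup_cons.1 hn
    cases l with
    | nil =>
      by_cases ha : a ∈ Rp
      · have : ∃ h, [a].head? = some h ∧ f h = true ∧ ∃ r ∈ [a], r ∈ Rp ∧ κ r = κ h :=
          ⟨a, rfl, htrue a ha, a, by simp, ha, rfl⟩
        rw [if_pos this]
        simp [ha]
      · simp [ha]
    | cons b l =>
      have ih' := ih hn'.2 (fun x y hxy => hcon x y (con_cons.2 (Or.inr hxy)))
      have hab : f a = f b → κ a = κ b := hcon a b (con_cons.2 (Or.inl ⟨rfl, rfl⟩))
      rw [List.countP_cons, List.countP_cons (p := fun x => decide (f x = false))]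
      by_cases hfa : f a = true
      · -- a on side true
        have e1 : (decide (f a = false)) = false := by simp [hfa]
        by_cases hfb : f b = true
        · have hkab := hab (hfa.trans hfb.symm)
          by_cases ha : a ∈ Rp
          · -- a is the representative, so the tail has none of this colour
            have hno : ¬ ∃ h, (b :: l).head? = some h ∧ f h = true ∧
                ∃ r ∈ b :: l, r ∈ Rp ∧ κ r = κ h := by
              rintro ⟨h, hh, -, r, hr, hrR, hrk⟩
              simp only [List.head?_cons, Option.some.injEq] at hh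
              subst hh
              have : r = a := hinj r hrR a ha (by rw [hrk, hkab])
              subst this
              exact hn'.1 hr
            rw [if_neg hno] at ih'
            have hyes : ∃ h, (a :: b :: l).head? = some h ∧ f h = true ∧
                ∃ r ∈ a :: b :: l, r ∈ Rp ∧ κ r = κ h := ⟨a, rfl, hfa, a, by simp, ha, rfl⟩
            rw [if_pos hyes]
            simp only [ha, decide_true, if_true, e1]
            simp only [Bool.false_eq_true, if_false]
            omega
          · have hmono : (if ∃ h, (b :: l).head? = some h ∧ f h = true ∧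
                ∃ r ∈ b :: l, r ∈ Rp ∧ κ r = κ h then 1 else 0) ≤
                (if ∃ h, (a :: b :: l).head? = some h ∧ f h = true ∧
                ∃ r ∈ a :: b :: l, r ∈ Rp ∧ κ r = κ h then 1 else 0) := by
              split_ifs with h1 h2
              · exact le_rfl
              · exfalso
                apply h2
                obtain ⟨h, hh, -, r, hr, hrR, hrk⟩ := h1
                simp only [List.head?_cons, Option.some.injEq] at hh
                subst hh
                exact ⟨a, rfl, hfa, r, List.mem_cons_of_mem _ hr, hrR, by rw [hrk, hkab]⟩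
              · exact Nat.zero_le _
              · exact le_rfl
            simp only [ha, decide_false, e1, Bool.false_eq_true, if_false]
            omega
        · -- b on side false
          have hno : ¬ ∃ h, (b :: l).head? = some h ∧ f h = true ∧
              ∃ r ∈ b :: l, r ∈ Rp ∧ κ r = κ h := by
            rintro ⟨h, hh, hfh, -⟩
            simp only [List.head?_cons, Option.some.injEq] at hh
            subst hh
            exact hfb hfh
          rw [if_neg hno] at ih'
          by_cases ha : a ∈ Rp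
          · have hyes : ∃ h, (a :: b :: l).head? = some h ∧ f h = true ∧
                ∃ r ∈ a :: b :: l, r ∈ Rp ∧ κ r = κ h := ⟨a, rfl, hfa, a, by simp, ha, rfl⟩
            rw [if_pos hyes]
            simp only [ha, decide_true, if_true, e1]
            simp only [Bool.false_eq_true, if_false]
            omega
          · simp only [ha, decide_false, e1, Bool.false_eq_true, if_false]
            omega
      · have hfa' : f a = false := by simpa using hfa
        have ha : a ∉ Rp := fun h => hfa (htrue a h)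
        simp only [ha, hfa', decide_false, decide_true, if_true, Bool.false_eq_true, if_false]
        have : (if ∃ h, (b :: l).head? = some h ∧ f h = true ∧
            ∃ r ∈ b :: l, r ∈ Rp ∧ κ r = κ h then 1 else 0) ≤ 1 := by split_ifs <;> simp
        omega

theorem family_bound {S : Finset β} {g : β → ℤ} {Lk : ℤ → List β}
    (hmem : ∀ k p, p ∈ Lk k ↔ p ∈ S ∧ g p = k) (hnd : ∀ k, (Lk k).Nodup)
    (hcon : ∀ k x y, Con (Lk k) x y → f x = f y → κ x = κ y)
    {Rp : Finset β} (hRS : Rp ⊆ S) (hinj : ∀ r ∈ Rp, ∀ r' ∈ Rp, κ r = κ r' → r = r')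
    (htrue : ∀ r ∈ Rp, f r = true) {T : Finset ℕ}
    (hT : ∀ k x, (Lk k).head? = some x → f x = true → κ x ∈ T) :
    Rp.card ≤ (S.filter (fun p => f p = false)).card + T.card := by
  rcases isEmpty_or_nonempty β with hemp | hnem
  · have : Rp = ∅ := Finset.eq_empty_of_isEmpty _
    rw [this]; simp
  set I := S.image g with hI
  have hcount : ∀ (P : β → Prop) [DecidablePred P] (k : ℤ), (Lk k).countP (fun x => decide (P x)) =
      ((S.filter P).filter (fun p => g p = k)).card := by
    intro P _ k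
    rw [List.countP_eq_length_filter, ← List.toFinset_card_of_nodup ((hnd k).filter _)]
    congr 1
    ext p
    simp only [List.mem_toFinset, List.mem_filter, hmem, Finset.mem_filter, decide_eq_true_eq]
    tauto
  have hsum : ∀ (P : β → Prop) [DecidablePred P], (S.filter P).card =
      ∑ k ∈ I, (Lk k).countP (fun x => decide (P x)) := by
    intro P _
    rw [Finset.card_eq_sum_card_fiberwise (f := g) (t := I)]
    · exact Finset.sum_congr rfl (fun k _ => (hcount P k).symm)
    · intro p hp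
      simp only [Finset.coe_filter, Set.mem_ofPred_eq] at hp
      exact Finset.mem_coe.2 (Finset.mem_image_of_mem _ hp.1)
  have h1 : Rp.card = ∑ k ∈ I, (Lk k).countP (fun x => decide (x ∈ Rp)) := by
    rw [← hsum (fun x => x ∈ Rp)]
    congr 1
    ext p
    simp only [Finset.mem_filter]
    exact ⟨fun h => ⟨hRS h, h⟩, fun h => h.2⟩
  have h2 := hsum (fun x => f x = false)
  have h3 : ∑ k ∈ I, (if ∃ h, (Lk k).head? = some h ∧ f h = true ∧
      ∃ r ∈ Lk k, r ∈ Rp ∧ κ r = κ h then 1 else 0) ≤ T.card := by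
    rw [← Finset.card_filter]
    -- choose the head
    have hch : ∀ k ∈ I.filter (fun k => ∃ h, (Lk k).head? = some h ∧ f h = true ∧
        ∃ r ∈ Lk k, r ∈ Rp ∧ κ r = κ h), ∃ r, r ∈ Rp ∧ g r = k ∧ κ r ∈ T := by
      intro k hk
      rw [Finset.mem_filter] at hk
      obtain ⟨-, h, hh, hfh, r, hr, hrR, hrk⟩ := hk
      exact ⟨r, hrR, ((hmem k r).1 hr).2, by rw [hrk]; exact hT k h hh hfh⟩
    choose! ρ hρ using hch
    apply Finset.card_le_card_of_injOn (fun k => κ (ρ k))
    · intro k hk
      exact (hρ k hk).2.2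
    · intro k hk k' hk' heq
      have h4 := hρ k hk
      have h5 := hρ k' hk'
      have := hinj _ h4.1 _ h5.1 heq
      rw [← h4.2.1, ← h5.2.1, this]
  calc Rp.card = ∑ k ∈ I, (Lk k).countP (fun x => decide (x ∈ Rp)) := h1
    _ ≤ ∑ k ∈ I, ((Lk k).countP (fun x => decide (f x = false)) +
        (if ∃ h, (Lk k).head? = some h ∧ f h = true ∧
          ∃ r ∈ Lk k, r ∈ Rp ∧ κ r = κ h then 1 else 0)) :=
        Finset.sum_le_sum (fun k _ => list_bound hinj htrue (Lk k) (hnd k) (hcon k))
    _ = (S.filter (fun p => f p = false)).card + ∑ k ∈ I,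
        (if ∃ h, (Lk k).head? = some h ∧ f h = true ∧
          ∃ r ∈ Lk k, r ∈ Rp ∧ κ r = κ h then 1 else 0) := by
        rw [Finset.sum_add_distrib, ← h2]
    _ ≤ _ := by omega

end Counting

/-- the main counting inequality for a family of disjoint unit bars -/
theorem main_bound {V : Type*} {own : ℝ × ℝ → V} {f : ℝ × ℝ → Bool}
    (h0 : ∀ x y, own x = own y → f x = f y) {S : Finset (ℝ × ℝ)} (hS : PD S)
    (hleg : ∀ c, Leg own f (cur S c)) {ι : Type*} [Fintype ι] (π ρ : ι → ℝ × ℝ)
    (hπ : ∀ i, π i ∈ S ∧ f (π i) = true) (hρ : ∀ i, ρ i ∈ S ∧ f (ρ i) = false)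
    (hsee : ∀ i, Sees (S : Set (ℝ × ℝ)) (π i) (ρ i))
    (hinj : ∀ i j, own (π i) = own (π j) → own (ρ i) = own (ρ j) → i = j) :
    Fintype.card ι ≤ 4 * (S.filter (fun p => f p = false)).card := by
  -- a line to the right of everything
  obtain ⟨c, hc⟩ : ∃ c : ℝ, ∀ e ∈ Ev S, e ≤ c := by
    by_cases h : (Ev S).Nonempty
    · exact ⟨(Ev S).max' h, fun e he => Finset.le_max' _ e he⟩
    · rw [Finset.not_nonempty_iff_eq_empty] at h
      exact ⟨0, by simp [h]⟩
  obtain ⟨A, Tp, Bt, hR, hall⟩ := sweep hS hleg _ c le_rfl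
  have hcurc : ∀ c' : ℝ, c ≤ c' → cur S c' = [] := by
    intro c' hc'
    rw [List.eq_nil_iff_forall_not_mem]
    intro p hp
    have := mem_cur.1 hp
    exact absurd (hc _ (right_mem_Ev this.1)) (not_le.2 (lt_of_le_of_lt hc' this.2.2))
  have hW : {p | p ∈ S ∧ p.1 ≤ c} = (S : Set (ℝ × ℝ)) := by
    ext p
    simp only [Set.mem_ofPred_eq, Finset.mem_coe]
    exact ⟨fun h => h.1, fun h => ⟨h, hc _ (left_mem_Ev h)⟩⟩
  have hall' : ∀ c' : ℝ, (∀ x y, Con (cur S c') x y → (x, y) ∈ A) ∧
        (∀ x, (cur S c').getLast? = some x → x ∈ Tp) ∧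
        (∀ x, (cur S c').head? = some x → x ∈ Bt) := by
    intro c'
    by_cases h : c' ≤ c
    · exact hall c' h
    · push Not at h
      rw [hcurc c' h.le]
      exact ⟨fun x y h => absurd h not_con_nil, by simp, by simp⟩
  rw [hW] at hR
  obtain ⟨κ, C, E, T, B, hst, hTp, hBt, hT, hB, hineq⟩ := hR.inv h0
  rw [hcurc c le_rfl] at hineq
  have h3 : tX f ([] : List (ℝ × ℝ)) = 0 := by unfold tX; simp
  have h4 : bX f ([] : List (ℝ × ℝ)) = 0 := by unfold bX; simp
  rw [h3, h4, if_pos rfl] at hineq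
  simp only [tr] at hineq
  -- pairs
  have hE : Fintype.card ι ≤ E.card := by
    rw [← Finset.card_univ]
    apply Finset.card_le_card_of_injOn (fun i => (κ (π i), κ (ρ i)))
    · intro i _
      have hne : π i ≠ ρ i := by
        intro h
        have h1 := (hπ i).2
        rw [h, (hρ i).2] at h1; simp at h1
      obtain ⟨c', h | h⟩ := sees_con hS (hπ i).1 (hρ i).1 hne (hsee i)
      · exact hst.i6 _ ((hall' c').1 _ _ h) (hπ i).2 (hρ i).2
      · exact hst.i6 _ (hst.i7 _ ((hall' c').1 _ _ h)) (hπ i).2 (hρ i).2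
    · intro i _ j _ hij
      simp only [Prod.mk.injEq] at hij
      exact hinj i j (hst.i3 _ (hπ i).1 _ (hπ j).1 hij.1) (hst.i3 _ (hρ i).1 _ (hρ j).1 hij.2)
  -- colours of the two sides
  set CX := C.filter (fun d => ∃ x ∈ S, κ x = d ∧ f x = true) with hCX
  set CY := C.filter (fun d => ¬ ∃ x ∈ S, κ x = d ∧ f x = true) with hCY
  have hCC : CX.card + CY.card = C.card := Finset.card_filter_add_card_filter_not _
  have hchX : ∀ d ∈ CX, ∃ x ∈ S, κ x = d ∧ f x = true := fun d hd => (Finset.mem_filter.1 hd).2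
  have hchY : ∀ d ∈ CY, ∃ x ∈ S, κ x = d ∧ f x = false := by
    intro d hd
    rw [hCY, Finset.mem_filter] at hd
    obtain ⟨x, hx, hxd⟩ := hst.i2 d hd.1
    refine ⟨x, hx, hxd, ?_⟩
    by_contra hf
    exact hd.2 ⟨x, hx, hxd, by simpa using hf⟩
  choose! rX hrX using hchX
  choose! rY hrY using hchY
  have hYc : CY.card ≤ (S.filter (fun p => f p = false)).card := by
    apply Finset.card_le_card_of_injOn rY
    · intro d hd
      have := hrY d hd
      exact Finset.mem_coe.2 (Finset.mem_filter.2 ⟨this.1, this.2.2⟩)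
    · intro d hd d' hd' h
      have e1 := hrY d hd
      have e2 := hrY d' hd'
      rw [← e1.2.1, ← e2.2.1, h]
  set Rp := CX.image rX with hRp
  have hRpc : Rp.card = CX.card := by
    apply Finset.card_image_of_injOn
    intro d hd d' hd' h
    have e1 := hrX d hd
    have e2 := hrX d' hd'
    rw [← e1.2.1, ← e2.2.1, h]
  have hRS : Rp ⊆ S := by
    intro r hr
    obtain ⟨d, hd, rfl⟩ := Finset.mem_image.1 hr
    exact (hrX d hd).1
  have hRinj : ∀ r ∈ Rp, ∀ r' ∈ Rp, κ r = κ r' → r = r' := by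
    intro r hr r' hr' h
    obtain ⟨d, hd, rfl⟩ := Finset.mem_image.1 hr
    obtain ⟨d', hd', rfl⟩ := Finset.mem_image.1 hr'
    rw [(hrX d hd).2.1, (hrX d' hd').2.1] at h
    rw [h]
  have hRt : ∀ r ∈ Rp, f r = true := by
    intro r hr
    obtain ⟨d, hd, rfl⟩ := Finset.mem_image.1 hr
    exact (hrX d hd).2.2
  have hmem : ∀ (k : ℤ) (p : ℝ × ℝ), p ∈ cur S (k : ℝ) ↔ p ∈ S ∧ ⌈p.1⌉ = k := by
    intro k p
    rw [mem_cur, Int.ceil_eq_iff]
    constructor
    · rintro ⟨h1, h2, h3⟩; exact ⟨h1, by linarith, h2⟩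
    · rintro ⟨h1, h2, h3⟩; exact ⟨h1, h3, by linarith⟩
  have hnd : ∀ c' : ℝ, (cur S c').Nodup := fun c' =>
    (cur_sorted hS c').imp (fun h => fun h2 => by rw [h2] at h; exact lt_irrefl _ h)
  have hconn : ∀ (c' : ℝ) x y, Con (cur S c') x y → f x = f y → κ x = κ y := by
    intro c' x y hxy hf
    have h1 := (hall' c').1 x y hxy
    rcases hleg c' x y hxy with h | h
    · exact hst.i5 (x, y) h1 h
    · exact absurd hf h
  have hb1 : Rp.card ≤ (S.filter (fun p => f p = false)).card + B.card :=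
    family_bound (g := fun p : ℝ × ℝ => ⌈p.1⌉) (Lk := fun k => cur S (k : ℝ)) hmem
      (fun k => hnd _) (fun k => hconn _) hRS hRinj hRt
      (fun k x hx hfx => hB x ((hall' _).2.2 x hx) hfx)
  have hb2 : Rp.card ≤ (S.filter (fun p => f p = false)).card + T.card :=
    family_bound (g := fun p : ℝ × ℝ => ⌈p.1⌉) (Lk := fun k => (cur S (k : ℝ)).reverse)
      (fun k p => by simp only [List.mem_reverse]; exact hmem k p)
      (fun k => List.nodup_reverse.2 (hnd _))
      (fun k x y hxy hf => (hconn _ y x (con_reverse.1 hxy) hf.symm).symm) hRS hRinj hRt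
      (fun k x hx hfx => by
        simp only [List.head?_reverse] at hx
        exact hT x ((hall' _).2.1 x hx) hfx)
  omega

theorem seg_self (p : ℝ × ℝ) : p ∈ seg p := ⟨le_rfl, by linarith, rfl⟩

/-- every representation of `K_{m,n}` with at most `t` bars per vertex has `m ≤ 4 t` -/
theorem lower {m n t : ℕ} (hn : 1 ≤ n) {B : Fin m ⊕ Fin n → Finset (ℝ × ℝ)}
    (hB : IsRep (K m n) t B) : m ≤ 4 * t := by
  set S : Finset (ℝ × ℝ) := Finset.univ.biUnion B with hS
  have hSc : (⋃ w, (B w : Set (ℝ × ℝ))) = (S : Set (ℝ × ℝ)) := by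
    rw [hS]; ext p; simp
  have hmemS : ∀ v, ∀ p ∈ B v, p ∈ S := fun v p hp =>
    Finset.mem_biUnion.2 ⟨v, Finset.mem_univ _, hp⟩
  -- owners
  have huniq : ∀ u v p, p ∈ B u → p ∈ B v → u = v := by
    intro u v p hu hv
    by_contra hne
    have := hB.disj u v p p hu hv (by intro h; exact hne (Prod.mk.inj h).1)
    exact Set.disjoint_left.1 this (seg_self p) (seg_self p)
  let v₀ : Fin m ⊕ Fin n := Sum.inr ⟨0, hn⟩
  let own : ℝ × ℝ → Fin m ⊕ Fin n := fun p => if h : ∃ v, p ∈ B v then h.choose else v₀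
  have hown : ∀ v p, p ∈ B v → own p = v := by
    intro v p hp
    have h : ∃ v, p ∈ B v := ⟨v, hp⟩
    have : own p = h.choose := dif_pos h
    rw [this]
    exact huniq _ _ p h.choose_spec hp
  have hownS : ∀ p ∈ S, p ∈ B (own p) := by
    intro p hp
    obtain ⟨v, -, hv⟩ := Finset.mem_biUnion.1 hp
    rw [hown v p hv]; exact hv
  let f : ℝ × ℝ → Bool := fun p => (own p).isLeft
  have h0 : ∀ x y, own x = own y → f x = f y := fun x y h => by
    show (own x).isLeft = (own y).isLeft
    rw [h]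
  have hPD : PD S := by
    intro p hp q hq hpq
    exact hB.disj (own p) (own q) p q (hownS p hp) (hownS q hq)
      (fun h => hpq (Prod.mk.inj h).2)
  have hleg : ∀ c, Leg own f (cur S c) := by
    intro c a b hab
    by_cases ho : own a = own b
    · exact Or.inl ho
    · right
      have hs := con_sees hPD hab
      have ha := (mem_cur.1 hab.mem_left).1
      have hb := (mem_cur.1 hab.mem_right).1
      have hadj : (K m n).Adj (own a) (own b) :=
        (hB.adj _ _ ho).2 ⟨a, hownS a ha, b, hownS b hb, by rw [hSc]; exact hs⟩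
      simp only [K, completeBipartiteGraph_adj] at hadj
      show (own a).isLeft ≠ (own b).isLeft
      intro heq
      rcases hadj with ⟨h1, h2⟩ | ⟨h1, h2⟩
      · rw [h1] at heq
        rw [← Sum.not_isLeft] at h2
        rw [← heq] at h2; simp at h2
      · rw [h2] at heq
        rw [← Sum.not_isLeft] at h1
        rw [heq] at h1; simp at h1
  have hsee : ∀ ij : Fin m × Fin n, ∃ p q, p ∈ B (Sum.inl ij.1) ∧ q ∈ B (Sum.inr ij.2) ∧
      Sees (S : Set (ℝ × ℝ)) p q := by
    intro ij
    have hadj : (K m n).Adj (Sum.inl ij.1) (Sum.inr ij.2) := by simp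
    obtain ⟨p, hp, q, hq, hpq⟩ := (hB.adj _ _ (by simp)).1 hadj
    exact ⟨p, q, hp, hq, by rw [← hSc]; exact hpq⟩
  choose π ρ hπ hρ hpr using hsee
  have hmain := main_bound h0 hPD hleg π ρ
    (fun i => ⟨hmemS _ _ (hπ i), by
      show (own (π i)).isLeft = true
      rw [hown _ _ (hπ i)]; rfl⟩)
    (fun i => ⟨hmemS _ _ (hρ i), by
      show (own (ρ i)).isLeft = false
      rw [hown _ _ (hρ i)]; rfl⟩)
    hpr
    (fun i j h1 h2 => by
      rw [hown _ _ (hπ i), hown _ _ (hπ j)] at h1
      rw [hown _ _ (hρ i), hown _ _ (hρ j)] at h2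
      exact Prod.ext (Sum.inl_injective h1) (Sum.inr_injective h2))
  rw [Fintype.card_prod, Fintype.card_fin, Fintype.card_fin] at hmain
  have hY : (S.filter (fun p => f p = false)).card ≤ n * t := by
    have hsub : S.filter (fun p => f p = false) ⊆
        (Finset.univ : Finset (Fin n)).biUnion (fun j => B (Sum.inr j)) := by
      intro p hp
      rw [Finset.mem_filter] at hp
      have h1 := hownS p hp.1
      have h2 : (own p).isLeft = false := hp.2
      cases ho : own p with
      | inl i => rw [ho] at h2; simp at h2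
      | inr j => rw [ho] at h1; exact Finset.mem_biUnion.2 ⟨j, Finset.mem_univ _, h1⟩
    refine (Finset.card_le_card hsub).trans (Finset.card_biUnion_le.trans ?_)
    calc ∑ j : Fin n, (B (Sum.inr j)).card ≤ ∑ _j : Fin n, t :=
          Finset.sum_le_sum (fun j _ => hB.card_le _)
      _ = n * t := by simp
  have : m * n ≤ (4 * t) * n := by nlinarith
  exact Nat.le_of_mul_le_mul_right this (by omega)

/-- `K_{m,n}` has a unit bar visibility representation (one unit interval per edge) -/
theorem exists_rep (m n : ℕ) : ∃ t B, IsRep (K m n) t B := by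
  let e : Fin m × Fin n → ℝ := fun ij => 2 * ((Encodable.encode ij : ℕ) : ℝ)
  have he : ∀ a b : Fin m × Fin n, a ≠ b → e a + 1 < e b ∨ e b + 1 < e a := by
    intro a b hab
    have h1 : (Encodable.encode a : ℕ) ≠ Encodable.encode b := fun h =>
      hab (Encodable.encode_injective h)
    rcases lt_or_gt_of_ne h1 with h | h
    · left
      have : ((Encodable.encode a : ℕ) : ℝ) + 1 ≤ ((Encodable.encode b : ℕ) : ℝ) := by
        exact_mod_cast h
      show 2 * ((Encodable.encode a : ℕ) : ℝ) + 1 < 2 * ((Encodable.encode b : ℕ) : ℝ)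
      linarith
    · right
      have : ((Encodable.encode b : ℕ) : ℝ) + 1 ≤ ((Encodable.encode a : ℕ) : ℝ) := by
        exact_mod_cast h
      show 2 * ((Encodable.encode b : ℕ) : ℝ) + 1 < 2 * ((Encodable.encode a : ℕ) : ℝ)
      linarith
  let B : Fin m ⊕ Fin n → Finset (ℝ × ℝ) := Sum.elim
    (fun i => Finset.univ.image (fun j : Fin n => (e (i, j), (0 : ℝ))))
    (fun j => Finset.univ.image (fun i : Fin m => (e (i, j), (1 : ℝ))))
  have hBl : ∀ i p, p ∈ B (Sum.inl i) ↔ ∃ j, p = (e (i, j), (0 : ℝ)) := by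
    intro i p
    simp only [B, Sum.elim_inl, Finset.mem_image, Finset.mem_univ, true_and]
    exact ⟨fun ⟨j, h⟩ => ⟨j, h.symm⟩, fun ⟨j, h⟩ => ⟨j, h.symm⟩⟩
  have hBr : ∀ j p, p ∈ B (Sum.inr j) ↔ ∃ i, p = (e (i, j), (1 : ℝ)) := by
    intro j p
    simp only [B, Sum.elim_inr, Finset.mem_image, Finset.mem_univ, true_and]
    exact ⟨fun ⟨i, h⟩ => ⟨i, h.symm⟩, fun ⟨i, h⟩ => ⟨i, h.symm⟩⟩
  -- every bar is (e a, h)
  have hform : ∀ v p, p ∈ B v → ∃ a h, p = (e a, h) := by
    intro v p hp
    cases v with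
    | inl i => obtain ⟨j, rfl⟩ := (hBl i p).1 hp; exact ⟨_, _, rfl⟩
    | inr j => obtain ⟨i, rfl⟩ := (hBr j p).1 hp; exact ⟨_, _, rfl⟩
  have hsep : ∀ a b : Fin m × Fin n, a ≠ b → ∀ x : ℝ, e a ≤ x → x ≤ e a + 1 → e b ≤ x →
      x ≤ e b + 1 → False := by
    intro a b hab x h1 h2 h3 h4
    rcases he a b hab with h | h <;> linarith
  refine ⟨max m n, B, ⟨?_, ?_, ?_⟩⟩
  · intro v
    cases v with
    | inl i =>
      exact (Finset.card_image_le).trans (by simp)
    | inr j =>
      exact (Finset.card_image_le).trans (by simp)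
  · intro u v p q hp hq hne
    rw [Set.disjoint_left]
    rintro ⟨x, y⟩ ⟨h1, h2, h3⟩ ⟨h4, h5, h6⟩
    simp only at h1 h2 h3 h4 h5 h6
    cases u with
    | inl i =>
      obtain ⟨j, rfl⟩ := (hBl i p).1 hp
      cases v with
      | inl i' =>
        obtain ⟨j', rfl⟩ := (hBl i' q).1 hq
        by_cases hij : (i, j) = (i', j')
        · apply hne
          have e1 : i = i' := (Prod.mk.inj hij).1
          rw [hij, e1]
        · exact hsep _ _ hij x h1 h2 h4 h5
      | inr j' =>
        obtain ⟨i', rfl⟩ := (hBr j' q).1 hq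
        simp only at h3 h6
        rw [h3] at h6; norm_num at h6
    | inr j =>
      obtain ⟨i, rfl⟩ := (hBr j p).1 hp
      cases v with
      | inl i' =>
        obtain ⟨j', rfl⟩ := (hBl i' q).1 hq
        simp only at h3 h6
        rw [h3] at h6; norm_num at h6
      | inr j' =>
        obtain ⟨i', rfl⟩ := (hBr j' q).1 hq
        by_cases hij : (i, j) = (i', j')
        · apply hne
          have e1 : j = j' := (Prod.mk.inj hij).2
          rw [hij, e1]
        · exact hsep _ _ hij x h1 h2 h4 h5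
  · -- visibility
    have hvis : ∀ i j, Sees (⋃ w, (B w : Set (ℝ × ℝ))) (e (i, j), 0) (e (i, j), 1) := by
      intro i j
      refine ⟨e (i, j), e (i, j) + 1, by linarith, subset_rfl, subset_rfl, ?_⟩
      intro r hr hr0 hr1
      rw [Set.mem_iUnion] at hr
      obtain ⟨w, hw⟩ := hr
      rw [Set.disjoint_left]
      rintro ⟨x, y⟩ ⟨h1, h2, -⟩ ⟨h4, -⟩
      simp only [Set.mem_Icc] at h1 h2 h4
      cases w with
      | inl i' =>
        obtain ⟨j', rfl⟩ := (hBl i' r).1 hw
        by_cases hij : (i', j') = (i, j)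
        · rw [hij] at hr0; exact hr0 rfl
        · exact hsep _ _ hij x h1 h2 h4.1 h4.2
      | inr j' =>
        obtain ⟨i', rfl⟩ := (hBr j' r).1 hw
        by_cases hij : (i', j') = (i, j)
        · rw [hij] at hr1; exact hr1 rfl
        · exact hsep _ _ hij x h1 h2 h4.1 h4.2
    have hsymm : ∀ (S : Set (ℝ × ℝ)) p q, Sees S p q → Sees S q p := by
      rintro S p q ⟨a, b, h1, h2, h3, h4⟩
      exact ⟨a, b, h1, h3, h2, fun r hr hrq hrp => by
        rw [min_comm, max_comm]; exact h4 r hr hrp hrq⟩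
    intro u v huv
    cases u with
    | inl i =>
      cases v with
      | inl i' =>
        constructor
        · intro h; simp at h
        · rintro ⟨p, hp, q, hq, a, b, hab, h1, h2, -⟩
          obtain ⟨j, rfl⟩ := (hBl i p).1 hp
          obtain ⟨j', rfl⟩ := (hBl i' q).1 hq
          exfalso
          have hij : (i, j) ≠ (i', j') := fun h => huv (by rw [(Prod.mk.inj h).1])
          have e1 := h1 (Set.left_mem_Icc.2 hab.le)
          have e2 := h2 (Set.left_mem_Icc.2 hab.le)
          exact hsep _ _ hij a e1.1 e1.2 e2.1 e2.2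
      | inr j =>
        constructor
        · intro _
          exact ⟨_, (hBl i _).2 ⟨j, rfl⟩, _, (hBr j _).2 ⟨i, rfl⟩, hvis i j⟩
        · intro _; simp
    | inr j =>
      cases v with
      | inl i =>
        constructor
        · intro _
          exact ⟨_, (hBr j _).2 ⟨i, rfl⟩, _, (hBl i _).2 ⟨j, rfl⟩, hsymm _ _ _ (hvis i j)⟩
        · intro _; simp
      | inr j' =>
        constructor
        · intro h; simp at h
        · rintro ⟨p, hp, q, hq, a, b, hab, h1, h2, -⟩
          obtain ⟨i, rfl⟩ := (hBr j p).1 hp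
          obtain ⟨i', rfl⟩ := (hBr j' q).1 hq
          exfalso
          have hij : (i, j) ≠ (i', j') := fun h => huv (by rw [(Prod.mk.inj h).2])
          have e1 := h1 (Set.left_mem_Icc.2 hab.le)
          have e2 := h2 (Set.left_mem_Icc.2 hab.le)
          exact hsep _ _ hij a e1.1 e1.2 e2.1 e2.2

/-- **MP_f867b0_co.**
(1) `ub(K_{m,n})` is attained by a representation.
(2) `m ≤ 4 ub(K_{m,n})` for all `m` and all `n ≥ 1`.
(3) With the known upper bound `ub(K_{m,n}) ≤ m/4 + o(m)` (uniformly in `2 ≤ n ≤ m`) as hypothesis,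
`ub(K_{m,n}) = m/4 + o(m)` uniformly in `2 ≤ n ≤ m`. -/
theorem result :
    (∀ m n : ℕ, ∃ B, IsRep (K m n) (ub (K m n)) B) ∧
    (∀ m n : ℕ, 1 ≤ n → m ≤ 4 * ub (K m n)) ∧
    ((∀ ε : ℝ, 0 < ε → ∃ M : ℕ, ∀ m ≥ M, ∀ n : ℕ, 2 ≤ n → n ≤ m →
        (ub (K m n) : ℝ) ≤ m / 4 + ε * m) →
      ∀ ε : ℝ, 0 < ε → ∃ M : ℕ, ∀ m ≥ M, ∀ n : ℕ, 2 ≤ n → n ≤ m →
        |(ub (K m n) : ℝ) - m / 4| ≤ ε * m) := by
  have h1 : ∀ m n : ℕ, ∃ B, IsRep (K m n) (ub (K m n)) B := by
    intro m n
    obtain ⟨t, B, hB⟩ := exists_rep m n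
    exact Nat.sInf_mem (s := {t | ∃ B, IsRep (K m n) t B}) ⟨t, B, hB⟩
  have h2 : ∀ m n : ℕ, 1 ≤ n → m ≤ 4 * ub (K m n) := by
    intro m n hn
    obtain ⟨B, hB⟩ := h1 m n
    exact lower hn hB
  refine ⟨h1, h2, ?_⟩
  intro hup ε hε
  obtain ⟨M, hM⟩ := hup ε hε
  refine ⟨M, fun m hm n hn hnm => ?_⟩
  have e1 := hM m hm n hn hnm
  have e2 : (m : ℝ) ≤ 4 * (ub (K m n) : ℝ) := by exact_mod_cast h2 m n (by omega)
  have e3 : (0 : ℝ) ≤ ε * m := by positivity
  rw [abs_le]
  constructor
  · linarith
  · linarith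

end Pool.Agent.Results.MP_f867b0_co.QuarterBound
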